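import Mathlib

set_option autoImplicit false

open Finset Polynomial

namespace Pool.Agent.Results.MP_9a0a6c_an.CubeRoot

/-- the value at `z` of the polynomial with exponents `m 0 < m 1 < ...` and coefficients `a` -/
noncomputable def poly {N : ℕ} (m : Fin N → ℕ) (a : Fin N → ℂ) (z : ℂ) : ℂ := ∑ k, a k * z ^ m k

/-- the value at `z` of the sum of its first `n` terms -/
noncomputable def psum {N : ℕ} (m : Fin N → ℕ) (a : Fin N → ℂ) (n : ℕ) (z : ℂ) : ℂ :=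
  ∑ k ∈ univ.filter (fun k : Fin N => (k : ℕ) < n), a k * z ^ m k

/-- the extremal quantity: the supremum of `|P_n(z)|` over all polynomials `P` with `N` nonzero
terms that are bounded by `1` on the unit circle, all `1 ≤ n ≤ N` and all `z` on the unit circle -/
noncomputable def M (N : ℕ) : ℝ :=
  sSup {r | ∃ (m : Fin N → ℕ) (a : Fin N → ℂ) (n : ℕ) (z : ℂ), StrictMono m ∧ (∀ k, a k ≠ 0) ∧
    (∀ w : ℂ, ‖w‖ = 1 → ‖poly m a w‖ ≤ 1) ∧ 1 ≤ n ∧ n ≤ N ∧ ‖z‖ = 1 ∧ r = ‖psum m a n z‖}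

/-- weights `1/4, 1/2, 1/4` -/
noncomputable def wt (s : Fin 3) : ℝ := if s = 1 then 1 / 2 else 1 / 4

/-- digits `-1, 0, 1` -/
def dgt (s : Fin 3) : ℤ := (s : ℤ) - 1

/-- integer with given digits in base 3 -/
def shift (k : ℕ) (s : Fin k → Fin 3) : ℤ := ∑ i, dgt (s i) * 3 ^ (i : ℕ)

/-- product weight -/
noncomputable def wts (k : ℕ) (s : Fin k → Fin 3) : ℝ := ∏ i, wt (s i)

noncomputable def phi (ζ : ℂ) : ℂ := (2 + ζ + ζ⁻¹) / 4

noncomputable def Psi (ζ : ℂ) : ℂ := 2 * ζ - 2 * ζ⁻¹ - ζ ^ 2 + (ζ⁻¹) ^ 2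

theorem parseval {N : ℕ} (m : Fin N → ℕ) (hm : StrictMono m) (a : Fin N → ℂ)
    (h : ∀ w : ℂ, ‖w‖ = 1 → ‖poly m a w‖ ≤ 1) : ∑ k, ‖a k‖ ^ 2 ≤ 1 := by
  classical
  set Q : ℕ := ∑ k, m k + 1 with hQ
  have hQ0 : Q ≠ 0 := by omega
  have hlt : ∀ k, m k < Q := by
    intro k
    have : m k ≤ ∑ k, m k := Finset.single_le_sum (f := m) (fun _ _ => Nat.zero_le _) (Finset.mem_univ k)
    omega
  set ζ : ℂ := Complex.exp (2 * Real.pi * Complex.I / Q) with hζdef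
  have hζ : IsPrimitiveRoot ζ Q := Complex.isPrimitiveRoot_exp Q hQ0
  have hζ0 : ζ ≠ 0 := hζ.ne_zero hQ0
  have hζn : ‖ζ‖ = 1 := hζ.norm'_eq_one hQ0
  have hconj : (starRingEnd ℂ) ζ = ζ⁻¹ := by
    rw [Complex.inv_def, Complex.normSq_eq_norm_sq, hζn]; simp
  -- orthogonality
  have horth : ∀ k l : Fin N, ∑ j ∈ range Q, (ζ ^ m k * (ζ⁻¹) ^ m l) ^ j = if k = l then (Q : ℂ) else 0 := by
    intro k l
    by_cases hkl : k = l
    · subst hkl
      have : ζ ^ m k * (ζ⁻¹) ^ m k = 1 := by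
        rw [← mul_pow, mul_inv_cancel₀ hζ0, one_pow]
      rw [this, if_pos rfl]
      simp
    · rw [if_neg hkl]
      have hne : ζ ^ m k * (ζ⁻¹) ^ m l ≠ 1 := by
        intro he
        apply hkl
        apply hm.injective
        apply hζ.pow_inj (hlt k) (hlt l)
        rw [inv_pow] at he
        field_simp at he
        exact he
      rw [geom_sum_eq hne]
      have : (ζ ^ m k * (ζ⁻¹) ^ m l) ^ Q = 1 := by
        rw [mul_pow, ← pow_mul, ← pow_mul, mul_comm (m k), mul_comm (m l), pow_mul, pow_mul, hζ.pow_eq_one,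
          inv_pow, hζ.pow_eq_one]
        simp
      rw [this]; simp
  -- the square of the modulus
  have hsq : ∀ j : ℕ, ((‖poly m a (ζ ^ j)‖ ^ 2 : ℝ) : ℂ) =
      ∑ k, ∑ l, a k * (starRingEnd ℂ) (a l) * (ζ ^ m k * (ζ⁻¹) ^ m l) ^ j := by
    intro j
    have h1 : ((‖poly m a (ζ ^ j)‖ ^ 2 : ℝ) : ℂ) = poly m a (ζ ^ j) * (starRingEnd ℂ) (poly m a (ζ ^ j)) := by
      rw [Complex.mul_conj, Complex.normSq_eq_norm_sq]
    rw [h1]
    unfold poly
    rw [map_sum, Finset.sum_mul_sum]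
    refine Finset.sum_congr rfl fun k _ => Finset.sum_congr rfl fun l _ => ?_
    rw [map_mul, map_pow, map_pow, hconj]
    rw [mul_pow, ← pow_mul, ← pow_mul, ← pow_mul, ← pow_mul, mul_comm j (m k), mul_comm j (m l)]
    ring
  have htot : (((∑ j ∈ range Q, ‖poly m a (ζ ^ j)‖ ^ 2 : ℝ)) : ℂ) = (((Q : ℝ) * ∑ k, ‖a k‖ ^ 2 : ℝ) : ℂ) := by
    rw [Complex.ofReal_sum]
    simp_rw [hsq]
    rw [Finset.sum_comm]
    have : ∀ k : Fin N, ∑ j ∈ range Q, ∑ l, a k * (starRingEnd ℂ) (a l) * (ζ ^ m k * (ζ⁻¹) ^ m l) ^ j =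
        (Q : ℂ) * ((‖a k‖ ^ 2 : ℝ) : ℂ) := by
      intro k
      rw [Finset.sum_comm]
      have h2 : ∀ l : Fin N, ∑ j ∈ range Q, a k * (starRingEnd ℂ) (a l) * (ζ ^ m k * (ζ⁻¹) ^ m l) ^ j =
          if k = l then a k * (starRingEnd ℂ) (a l) * Q else 0 := by
        intro l
        rw [← Finset.mul_sum, horth k l]
        split_ifs <;> simp
      rw [Finset.sum_congr rfl (fun l _ => h2 l), Finset.sum_ite_eq]
      simp only [Finset.mem_univ, if_true]
      rw [Complex.mul_conj, Complex.normSq_eq_norm_sq]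
      ring
    rw [Finset.sum_congr rfl (fun k _ => this k), ← Finset.mul_sum]
    push_cast
    rfl
  have htot' := Complex.ofReal_injective htot
  have hle : ∑ j ∈ range Q, ‖poly m a (ζ ^ j)‖ ^ 2 ≤ Q := by
    calc ∑ j ∈ range Q, ‖poly m a (ζ ^ j)‖ ^ 2 ≤ ∑ j ∈ range Q, (1 : ℝ) := by
          refine Finset.sum_le_sum fun j _ => ?_
          have h3 := h (ζ ^ j) (by rw [norm_pow, hζn, one_pow])
          exact pow_le_one₀ (norm_nonneg _) h3
      _ = Q := by simp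
  rw [htot'] at hle
  have hQpos : (0 : ℝ) < Q := by positivity
  nlinarith

theorem hoeff_aux {I : Type} [Fintype I] (w v : I → ℝ) (c l : ℝ) (hc : 0 < c)
    (hw : ∀ i, 0 ≤ w i) (hw1 : ∑ i, w i = 1) (hv : ∀ i, |v i| ≤ c)
    (hm : ∑ i, w i * v i = 0) :
    ∑ i, w i * Real.exp (l * v i) ≤ Real.exp ((l * c) ^ 2 / 2) := by
  have key : ∀ i, Real.exp (l * v i) ≤ Real.cosh (l * c) + (v i / c) * Real.sinh (l * c) := by
    intro i
    have hu1 : v i / c ≤ 1 := by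
      rw [div_le_one hc]; exact (abs_le.1 (hv i)).2
    have hu2 : -1 ≤ v i / c := by
      rw [le_div_iff₀ hc]; have := (abs_le.1 (hv i)).1; linarith
    have ha : 0 ≤ (1 + v i / c) / 2 := by linarith
    have hb : 0 ≤ (1 - v i / c) / 2 := by linarith
    have hab : (1 + v i / c) / 2 + (1 - v i / c) / 2 = 1 := by ring
    have hconv := convexOn_exp.2 (Set.mem_univ (l * c)) (Set.mem_univ (-(l * c))) ha hb hab
    simp only [smul_eq_mul] at hconv
    have h1 : (1 + v i / c) / 2 * (l * c) + (1 - v i / c) / 2 * (-(l * c)) = l * v i := by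
      field_simp
      ring
    rw [h1] at hconv
    rw [Real.cosh_eq, Real.sinh_eq]
    linarith
  calc ∑ i, w i * Real.exp (l * v i)
      ≤ ∑ i, w i * (Real.cosh (l * c) + (v i / c) * Real.sinh (l * c)) :=
        Finset.sum_le_sum fun i _ => mul_le_mul_of_nonneg_left (key i) (hw i)
    _ = (∑ i, w i) * Real.cosh (l * c) + (∑ i, w i * v i) * (Real.sinh (l * c) / c) := by
        rw [Finset.sum_mul, Finset.sum_mul, ← Finset.sum_add_distrib]
        refine Finset.sum_congr rfl fun i _ => ?_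
        ring
    _ = Real.cosh (l * c) := by rw [hw1, hm]; ring
    _ ≤ Real.exp ((l * c) ^ 2 / 2) := Real.cosh_le_exp_half_sq _

theorem select {α X : Type} [DecidableEq α] [Fintype X] (A : Finset α) (I : α → Type)
    [∀ a, Fintype (I a)] (w : ∀ a, I a → ℝ) (v : ∀ a, I a → X → ℝ) (c l : ℝ) (hc : 0 < c)
    (hw : ∀ a i, 0 ≤ w a i) (hw1 : ∀ a, ∑ i, w a i = 1) (hv : ∀ a i x, |v a i x| ≤ c)
    (hm : ∀ a x, ∑ i, w a i * v a i x = 0) :
    ∃ ch : ∀ a, I a, ∑ x, Real.exp (l * ∑ a ∈ A, v a (ch a) x) ≤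
      (Fintype.card X : ℝ) * Real.exp (A.card * ((l * c) ^ 2 / 2)) := by
  classical
  have hne : ∀ a, Nonempty (I a) := by
    intro a
    by_contra h
    rw [not_nonempty_iff] at h
    have := hw1 a
    simp at this
  induction A using Finset.induction_on with
  | empty =>
    refine ⟨fun a => Classical.choice (hne a), ?_⟩
    simp
  | insert a A ha ih =>
    obtain ⟨ch, hch⟩ := ih
    set W : ℝ := ∑ x, Real.exp (l * ∑ a ∈ A, v a (ch a) x) with hW
    have hE : 0 < Real.exp ((l * c) ^ 2 / 2) := Real.exp_pos _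
    have havg : ∑ i, w a i * ∑ x, Real.exp (l * (∑ a ∈ A, v a (ch a) x + v a i x)) ≤
        W * Real.exp ((l * c) ^ 2 / 2) := by
      have h1 : ∑ i, w a i * ∑ x, Real.exp (l * (∑ a ∈ A, v a (ch a) x + v a i x)) =
          ∑ x, Real.exp (l * ∑ a ∈ A, v a (ch a) x) * ∑ i, w a i * Real.exp (l * v a i x) := by
        simp only [Finset.mul_sum]
        rw [Finset.sum_comm]
        refine Finset.sum_congr rfl fun x _ => Finset.sum_congr rfl fun i _ => ?_
        rw [mul_add, Real.exp_add, Finset.mul_sum]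
        ring
      rw [h1, hW, Finset.sum_mul]
      refine Finset.sum_le_sum fun x _ => mul_le_mul_of_nonneg_left ?_ (Real.exp_pos _).le
      exact hoeff_aux (w a) (fun i => v a i x) c l hc (hw a) (hw1 a) (fun i => hv a i x) (hm a x)
    obtain ⟨i, hi⟩ : ∃ i, ∑ x, Real.exp (l * (∑ a ∈ A, v a (ch a) x + v a i x)) ≤
        W * Real.exp ((l * c) ^ 2 / 2) := by
      by_contra hcon
      push Not at hcon
      have h2 : W * Real.exp ((l * c) ^ 2 / 2) <
          ∑ i, w a i * ∑ x, Real.exp (l * (∑ a ∈ A, v a (ch a) x + v a i x)) := by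
        calc W * Real.exp ((l * c) ^ 2 / 2) = ∑ i, w a i * (W * Real.exp ((l * c) ^ 2 / 2)) := by
              rw [← Finset.sum_mul, hw1 a, one_mul]
          _ < _ := by
              apply Finset.sum_lt_sum
              · intro i _
                exact mul_le_mul_of_nonneg_left (hcon i).le (hw a i)
              · by_contra h3
                push Not at h3
                have h4 : ∀ i, w a i = 0 := by
                  intro i
                  have h5 := h3 i (Finset.mem_univ i)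
                  by_contra h6
                  have h7 : 0 < w a i := lt_of_le_of_ne (hw a i) (Ne.symm h6)
                  exact absurd (mul_lt_mul_of_pos_left (hcon i) h7) (not_lt.2 h5)
                have h8 := hw1 a
                simp [h4] at h8
      exact absurd havg (not_le.2 h2)
    refine ⟨Function.update ch a i, ?_⟩
    have h3 : ∀ x, ∑ a' ∈ insert a A, v a' (Function.update ch a i a') x =
        ∑ a ∈ A, v a (ch a) x + v a i x := by
      intro x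
      rw [Finset.sum_insert ha, add_comm]
      congr 1
      · refine Finset.sum_congr rfl fun a' ha' => ?_
        have : a' ≠ a := fun h => ha (h ▸ ha')
        rw [Function.update_of_ne this]
      · rw [Function.update_self]
    simp only [h3]
    refine hi.trans ?_
    rw [Finset.card_insert_of_notMem ha]
    calc W * Real.exp ((l * c) ^ 2 / 2)
        ≤ ((Fintype.card X : ℝ) * Real.exp (A.card * ((l * c) ^ 2 / 2))) *
          Real.exp ((l * c) ^ 2 / 2) := mul_le_mul_of_nonneg_right hch hE.le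
      _ = (Fintype.card X : ℝ) * Real.exp ((A.card + 1 : ℕ) * ((l * c) ^ 2 / 2)) := by
          rw [mul_assoc, ← Real.exp_add]
          congr 2
          push_cast
          ring

theorem h_geom (k : ℕ) : 2 * ∑ i ∈ range k, (3 : ℤ) ^ i = 3 ^ k - 1 := by
  induction k with
  | zero => simp
  | succ k ih => rw [Finset.sum_range_succ, mul_add, ih]; ring

theorem h_w0 : wt 0 = 1 / 4 := by unfold wt; rw [if_neg (by decide)]
theorem h_w1 : wt 1 = 1 / 2 := by unfold wt; rw [if_pos rfl]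
theorem h_w2 : wt 2 = 1 / 4 := by unfold wt; rw [if_neg (by decide)]

theorem h_dgt (s : Fin 3) : |dgt s| ≤ 1 := by
  unfold dgt
  fin_cases s <;> simp

theorem h_zpow {ι : Type*} (t : Finset ι) (f : ι → ℤ) (ζ : ℂ) (hζ : ζ ≠ 0) :
    ζ ^ (∑ i ∈ t, f i) = ∏ i ∈ t, ζ ^ f i := by
  classical
  induction t using Finset.induction_on with
  | empty => simp
  | insert a s ha ih => rw [Finset.sum_insert ha, Finset.prod_insert ha, zpow_add₀ hζ, ih]

theorem wts_nonneg (k : ℕ) (s : Fin k → Fin 3) : 0 ≤ wts k s := by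
  unfold wts wt
  apply Finset.prod_nonneg
  intro i _
  split_ifs <;> norm_num

theorem wts_sum (k : ℕ) : ∑ s : Fin k → Fin 3, wts k s = 1 := by
  have h := Finset.prod_univ_sum (fun _ : Fin k => (univ : Finset (Fin 3))) (fun _ j => wt j)
  rw [Fintype.piFinset_univ] at h
  unfold wts
  rw [← h]
  apply Finset.prod_eq_one
  intro i _
  rw [Fin.sum_univ_three, h_w0, h_w1, h_w2]
  norm_num

theorem shift_lt (k : ℕ) (s : Fin k → Fin 3) : |shift k s| < 3 ^ k := by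
  have h1 : |shift k s| ≤ ∑ i ∈ range k, (3 : ℤ) ^ i := by
    unfold shift
    refine (Finset.abs_sum_le_sum_abs _ _).trans ?_
    rw [Finset.sum_range]
    apply Finset.sum_le_sum
    intro i _
    rw [abs_mul, abs_of_nonneg (by positivity : (0 : ℤ) ≤ 3 ^ (i : ℕ))]
    have := h_dgt (s i)
    have h3 : (0 : ℤ) ≤ 3 ^ (i : ℕ) := by positivity
    nlinarith
  have h2 := h_geom k
  have h3 : (0 : ℤ) < 3 ^ k := by positivity
  have h4 : (0 : ℤ) ≤ ∑ i ∈ range k, (3 : ℤ) ^ i := Finset.sum_nonneg fun i _ => by positivity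
  linarith

theorem riesz (k : ℕ) (ζ : ℂ) (hζ : ζ ≠ 0) :
    ∑ s : Fin k → Fin 3, (wts k s : ℂ) * ζ ^ shift k s = ∏ i ∈ range k, phi (ζ ^ 3 ^ i) := by
  have h := Finset.prod_univ_sum (fun _ : Fin k => (univ : Finset (Fin 3)))
    (fun (i : Fin k) (j : Fin 3) => (wt j : ℂ) * ζ ^ (dgt j * 3 ^ (i : ℕ)))
  rw [Fintype.piFinset_univ] at h
  have h1 : ∀ s : Fin k → Fin 3, (wts k s : ℂ) * ζ ^ shift k s =
      ∏ i : Fin k, (wt (s i) : ℂ) * ζ ^ (dgt (s i) * 3 ^ (i : ℕ)) := by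
    intro s
    unfold wts shift
    rw [h_zpow _ _ _ hζ, Finset.prod_mul_distrib, Complex.ofReal_prod]
  simp_rw [h1]
  rw [← h, Finset.prod_range]
  apply Finset.prod_congr rfl
  intro i _
  rw [Fin.sum_univ_three]
  have w0 : (wt 0 : ℂ) = 1 / 4 := by rw [h_w0]; norm_num
  have w1 : (wt 1 : ℂ) = 1 / 2 := by rw [h_w1]; norm_num
  have w2 : (wt 2 : ℂ) = 1 / 4 := by rw [h_w2]; norm_num
  have d0 : dgt 0 = -1 := by unfold dgt; simp
  have d1 : dgt 1 = 0 := by unfold dgt; simp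
  have d2 : dgt 2 = 1 := by unfold dgt; simp
  rw [w0, w1, w2, d0, d1, d2]
  have e0 : ζ ^ ((-1 : ℤ) * 3 ^ (i : ℕ)) = (ζ ^ 3 ^ (i : ℕ))⁻¹ := by
    have : ((3 : ℤ) ^ (i : ℕ)) = ((3 ^ (i : ℕ) : ℕ) : ℤ) := by push_cast; rfl
    rw [neg_one_mul, zpow_neg, this, zpow_natCast]
  have e2 : ζ ^ ((1 : ℤ) * 3 ^ (i : ℕ)) = ζ ^ 3 ^ (i : ℕ) := by
    rw [one_mul]
    have : ((3 : ℤ) ^ (i : ℕ)) = ((3 ^ (i : ℕ) : ℕ) : ℤ) := by push_cast; rfl
    rw [this, zpow_natCast]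
  rw [e0, e2, zero_mul, zpow_zero]
  unfold phi
  ring

theorem phi_eq (ζ : ℂ) (h : ‖ζ‖ = 1) : phi ζ = (((1 + ζ.re) / 2 : ℝ) : ℂ) := by
  unfold phi
  rw [Complex.inv_eq_conj h, add_assoc, Complex.add_conj]
  push_cast
  ring

theorem Psi_le (ζ : ℂ) (h : ‖ζ‖ = 1) : ‖Psi ζ‖ ≤ 8 * (1 - (1 + ζ.re) / 2) := by
  have h1 : Psi ζ = (ζ - ζ⁻¹) * (2 - (ζ + ζ⁻¹)) := by unfold Psi; ring
  have h2 : ‖ζ - ζ⁻¹‖ ≤ 2 := by
    refine (norm_sub_le _ _).trans ?_
    rw [norm_inv, h]; norm_num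
  have hre : ζ.re ≤ 1 := by
    have := Complex.re_le_norm ζ
    rw [h] at this; exact this
  have h3 : ‖2 - (ζ + ζ⁻¹)‖ = 2 * (1 - ζ.re) := by
    rw [Complex.inv_eq_conj h, Complex.add_conj]
    have : (2 : ℂ) - ((2 * ζ.re : ℝ) : ℂ) = ((2 * (1 - ζ.re) : ℝ) : ℂ) := by push_cast; ring
    rw [this, Complex.norm_real, Real.norm_of_nonneg (by linarith)]
  rw [h1, norm_mul, h3]
  have h4 : 0 ≤ 2 * (1 - ζ.re) := by linarith
  have h5 := mul_le_mul_of_nonneg_right h2 h4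
  linarith

theorem Psi_le_six (ζ : ℂ) (h : ‖ζ‖ = 1) : ‖Psi ζ‖ ≤ 6 := by
  unfold Psi
  have h1 : ‖2 * ζ‖ = 2 := by rw [norm_mul, h]; norm_num
  have h2 : ‖2 * ζ⁻¹‖ = 2 := by rw [norm_mul, norm_inv, h]; norm_num
  have h3 : ‖ζ ^ 2‖ = 1 := by rw [norm_pow, h]; norm_num
  have h4 : ‖(ζ⁻¹) ^ 2‖ = 1 := by rw [norm_pow, norm_inv, h]; norm_num
  have e1 := norm_add_le (2 * ζ - 2 * ζ⁻¹ - ζ ^ 2) ((ζ⁻¹) ^ 2)
  have e2 := norm_sub_le (2 * ζ - 2 * ζ⁻¹) (ζ ^ 2)
  have e3 := norm_sub_le (2 * ζ) (2 * ζ⁻¹)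
  linarith

theorem tele_eq (p : ℕ → ℝ) (n : ℕ) :
    ∑ k ∈ range n, (1 - p k) * ∏ i ∈ range k, p i = 1 - ∏ i ∈ range n, p i := by
  induction n with
  | zero => simp
  | succ n ih => rw [sum_range_succ, ih, prod_range_succ]; ring

theorem tele (p : ℕ → ℝ) (h0 : ∀ i, 0 ≤ p i) (n : ℕ) :
    ∑ k ∈ range n, (1 - p k) * ∏ i ∈ range k, p i ≤ 1 := by
  rw [tele_eq]
  have : 0 ≤ ∏ i ∈ range n, p i := prod_nonneg (fun i _ => h0 i)
  linarith

theorem exp_lip (a b : ℝ) : ‖Complex.exp ((a : ℂ) * Complex.I) - Complex.exp ((b : ℂ) * Complex.I)‖ ≤ |a - b| := by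
  have h1 : Complex.exp ((a : ℂ) * Complex.I) - Complex.exp ((b : ℂ) * Complex.I) =
      Complex.exp ((b : ℂ) * Complex.I) * (Complex.exp (Complex.I * ((a - b : ℝ) : ℂ)) - 1) := by
    rw [mul_sub, mul_one, ← Complex.exp_add]
    congr 2
    push_cast
    ring
  rw [h1, norm_mul, Complex.norm_exp_ofReal_mul_I, one_mul]
  exact Real.norm_exp_I_mul_ofReal_sub_one_le

theorem net (Q : ℕ) (hQ : 0 < Q) (ζ : ℂ) (h : ‖ζ‖ = 1) :
    ∃ q : Fin Q, ‖ζ - Complex.exp (((2 * Real.pi * (q : ℕ) / Q : ℝ) : ℂ) * Complex.I)‖ ≤ 2 * Real.pi / Q := by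
  have hpi := Real.pi_pos
  have hQ0 : (0 : ℝ) < Q := by exact_mod_cast hQ
  have hex : ∃ y : ℝ, 0 ≤ y ∧ y < 1 ∧ ζ = Complex.exp (((2 * Real.pi * y : ℝ) : ℂ) * Complex.I) := by
    have hpol : ζ = Complex.exp ((Complex.arg ζ : ℂ) * Complex.I) := by
      have := Complex.norm_mul_exp_arg_mul_I ζ
      rw [h] at this
      simpa using this.symm
    rcases lt_or_ge (Complex.arg ζ) 0 with hneg | hpos
    · refine ⟨Complex.arg ζ / (2 * Real.pi) + 1, ?_, ?_, ?_⟩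
      · have := Complex.neg_pi_lt_arg ζ
        have h2 : -1 ≤ Complex.arg ζ / (2 * Real.pi) := by
          rw [le_div_iff₀ (by positivity)]; linarith
        linarith
      · have : Complex.arg ζ / (2 * Real.pi) < 0 := div_neg_of_neg_of_pos hneg (by positivity)
        linarith
      · have e : 2 * Real.pi * (Complex.arg ζ / (2 * Real.pi) + 1) = Complex.arg ζ + 2 * Real.pi := by
          field_simp
        rw [e]
        push_cast
        rw [add_mul, Complex.exp_add, Complex.exp_two_pi_mul_I, mul_one]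
        exact hpol
    · refine ⟨Complex.arg ζ / (2 * Real.pi), by positivity, ?_, ?_⟩
      · rw [div_lt_one (by positivity)]
        have := Complex.arg_le_pi ζ
        linarith
      · have e : 2 * Real.pi * (Complex.arg ζ / (2 * Real.pi)) = Complex.arg ζ := by
          field_simp
        rw [e]
        exact hpol
  obtain ⟨y, hy0, hy1, rfl⟩ := hex
  have hq : ⌊y * Q⌋₊ < Q := by
    rw [Nat.floor_lt (by positivity)]
    nlinarith
  refine ⟨⟨⌊y * Q⌋₊, hq⟩, ?_⟩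
  refine (exp_lip _ _).trans ?_
  have h1 : (⌊y * Q⌋₊ : ℝ) ≤ y * Q := Nat.floor_le (by positivity)
  have h2 : y * Q < ⌊y * Q⌋₊ + 1 := Nat.lt_floor_add_one _
  have e : 2 * Real.pi * y - 2 * Real.pi * ((⟨⌊y * Q⌋₊, hq⟩ : Fin Q) : ℕ) / Q =
      2 * Real.pi * (y * Q - ⌊y * Q⌋₊) / Q := by
    field_simp
  rw [e, abs_of_nonneg (by apply div_nonneg _ hQ0.le; apply mul_nonneg (by positivity); linarith)]
  apply div_le_div_of_nonneg_right _ hQ0.le
  nlinarith

theorem pow_lip (ζ η : ℂ) (hζ : ‖ζ‖ = 1) (hη : ‖η‖ = 1) (n : ℕ) :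
    ‖ζ ^ n - η ^ n‖ ≤ (n : ℝ) * ‖ζ - η‖ := by
  induction n with
  | zero => simp
  | succ n ih =>
    have e : ζ ^ (n + 1) - η ^ (n + 1) = ζ ^ n * (ζ - η) + (ζ ^ n - η ^ n) * η := by ring
    rw [e]
    refine (norm_add_le _ _).trans ?_
    rw [norm_mul, norm_mul, norm_pow, hζ, hη, one_pow, one_mul, mul_one]
    push_cast
    linarith

theorem zpow_lip (ζ η : ℂ) (hζ : ‖ζ‖ = 1) (hη : ‖η‖ = 1) (n : ℤ) :
    ‖ζ ^ n - η ^ n‖ ≤ |(n : ℝ)| * ‖ζ - η‖ := by
  rcases Int.eq_nat_or_neg n with ⟨k, rfl | rfl⟩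
  · rw [zpow_natCast, zpow_natCast]
    have := pow_lip ζ η hζ hη k
    simpa using this
  · rw [zpow_neg, zpow_neg, zpow_natCast, zpow_natCast, ← inv_pow, ← inv_pow]
    have h1 := pow_lip ζ⁻¹ η⁻¹ (by rw [norm_inv, hζ, inv_one]) (by rw [norm_inv, hη, inv_one]) k
    have h2 : ‖ζ⁻¹ - η⁻¹‖ = ‖ζ - η‖ := by
      rw [Complex.inv_eq_conj hζ, Complex.inv_eq_conj hη, ← map_sub, Complex.norm_conj]
    rw [h2] at h1
    simpa using h1

theorem lower_card {N : ℕ} (S : Finset (Fin N)) (hS : ∀ a b : Fin N, a ≤ b → b ∈ S → a ∈ S)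
    (k : Fin N) : (k : ℕ) < S.card ↔ k ∈ S := by
  constructor
  · intro h
    by_contra hk
    have hsub : S ⊆ Finset.Iio k := by
      intro x hx
      rw [Finset.mem_Iio]
      by_contra hn
      exact hk (hS k x (not_lt.1 hn) hx)
    have := Finset.card_le_card hsub
    rw [Fin.card_Iio] at this
    omega
  · intro hk
    have hsub : Finset.Iic k ⊆ S := fun x hx => hS x k (Finset.mem_Iic.1 hx) hk
    have := Finset.card_le_card hsub
    rw [Fin.card_Iic] at this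
    omega

theorem poly_enum (q : ℂ[X]) (N : ℕ) (hN : q.support.card = N) (L : ℕ)
    (hL : ∑ i ∈ range L, q.coeff i ≠ 0) (hb : ∀ w : ℂ, ‖w‖ = 1 → ‖q.eval w‖ ≤ 1) :
    ∃ (m : Fin N → ℕ) (a : Fin N → ℂ) (n : ℕ), StrictMono m ∧ (∀ k, a k ≠ 0) ∧
      (∀ w : ℂ, ‖w‖ = 1 → ‖poly m a w‖ ≤ 1) ∧ 1 ≤ n ∧ n ≤ N ∧
      psum m a n 1 = ∑ i ∈ range L, q.coeff i := by
  set e := q.support.orderEmbOfFin hN with he
  have hmap : (Finset.univ : Finset (Fin N)).map e.toEmbedding = q.support :=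
    Finset.map_orderEmbOfFin_univ _ _
  have hmono : StrictMono (fun k => e k) := e.strictMono
  have hsum : ∀ f : ℕ → ℂ, ∑ k, f (e k) = ∑ i ∈ q.support, f i := by
    intro f
    rw [← hmap, Finset.sum_map]
    rfl
  set S : Finset (Fin N) := univ.filter (fun k => e k < L) with hS
  have hlow : ∀ a b : Fin N, a ≤ b → b ∈ S → a ∈ S := by
    intro a b hab hb
    rw [hS, Finset.mem_filter] at hb ⊢
    exact ⟨Finset.mem_univ _, (hmono.monotone hab).trans_lt hb.2⟩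
  have hps : psum (fun k => e k) (fun k => q.coeff (e k)) S.card 1 = ∑ i ∈ range L, q.coeff i := by
    unfold psum
    have e1 : univ.filter (fun k : Fin N => (k : ℕ) < S.card) = S := by
      ext k
      rw [Finset.mem_filter]
      rw [lower_card S hlow k]
      simp
    rw [e1, hS, Finset.sum_filter]
    have e2 : ∀ k : Fin N, (if e k < L then q.coeff (e k) * 1 ^ e k else 0) =
        (fun i => if i < L then q.coeff i else 0) (e k) := by
      intro k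
      simp
    rw [Finset.sum_congr rfl (fun k _ => e2 k), hsum (fun i => if i < L then q.coeff i else 0),
      ← Finset.sum_filter]
    have e3 : ∑ i ∈ range L, q.coeff i = ∑ i ∈ (range L).filter (fun i => i ∈ q.support), q.coeff i := by
      rw [Finset.sum_filter]
      apply Finset.sum_congr rfl
      intro i _
      split_ifs with h
      · rfl
      · exact Polynomial.notMem_support_iff.1 h
    rw [e3]
    apply Finset.sum_congr _ fun _ _ => rfl
    ext i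
    simp only [Finset.mem_filter, Finset.mem_range]
    tauto
  refine ⟨fun k => e k, fun k => q.coeff (e k), S.card, hmono, ?_, ?_, ?_, ?_, hps⟩
  · intro k
    exact Polynomial.mem_support_iff.1 (Finset.orderEmbOfFin_mem _ _ k)
  · intro w hw
    have : poly (fun k => e k) (fun k => q.coeff (e k)) w = q.eval w := by
      unfold poly
      rw [hsum (fun i => q.coeff i * w ^ i), Polynomial.eval_eq_sum]
      rfl
    rw [this]
    exact hb w hw
  · by_contra hn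
    have h0 : S.card = 0 := by omega
    apply hL
    rw [← hps, h0]
    unfold psum
    simp
  · exact (Finset.card_le_univ S).trans (by rw [Fintype.card_fin])

theorem conv_poly (p : ℂ[X]) (L : ℕ) (hL : ∑ i ∈ range L, p.coeff i ≠ 0)
    (hb : ∀ w : ℂ, ‖w‖ = 1 → ‖p.eval w‖ ≤ 1 / 2) (N : ℕ) (hN : p.support.card ≤ N) :
    ∃ (m : Fin N → ℕ) (a : Fin N → ℂ) (n : ℕ), StrictMono m ∧ (∀ k, a k ≠ 0) ∧
      (∀ w : ℂ, ‖w‖ = 1 → ‖poly m a w‖ ≤ 1) ∧ 1 ≤ n ∧ n ≤ N ∧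
      psum m a n 1 = ∑ i ∈ range L, p.coeff i := by
  have hNpos : 0 < N := by
    by_contra h0
    have h1 : p.support.card = 0 := by omega
    rw [Finset.card_eq_zero] at h1
    apply hL
    apply Finset.sum_eq_zero
    intro i _
    apply Polynomial.notMem_support_iff.1
    rw [h1]
    exact Finset.notMem_empty _
  have hN0 : (N : ℂ) ≠ 0 := by exact_mod_cast hNpos.ne'
  set E := max p.natDegree L + 1 with hE
  set r := N - p.support.card with hr
  set q : ℂ[X] := p + ∑ i ∈ range r, monomial (E + i) (1 / (2 * N) : ℂ) with hq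
  have hcoef : ∀ j, q.coeff j = p.coeff j + if E ≤ j ∧ j < E + r then (1 / (2 * N) : ℂ) else 0 := by
    intro j
    rw [hq, Polynomial.coeff_add, Polynomial.finsetSum_coeff]
    congr 1
    simp only [Polynomial.coeff_monomial]
    by_cases hj : E ≤ j ∧ j < E + r
    · rw [if_pos hj, Finset.sum_eq_single (j - E)]
      · rw [if_pos (by omega)]
      · intro b _ hb
        rw [if_neg (by omega)]
      · intro hnb
        exfalso
        apply hnb
        rw [Finset.mem_range]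
        omega
    · rw [if_neg hj]
      apply Finset.sum_eq_zero
      intro i hi
      rw [Finset.mem_range] at hi
      rw [if_neg (by omega)]
  have hpE : ∀ j, E ≤ j → p.coeff j = 0 := by
    intro j hj
    apply Polynomial.coeff_eq_zero_of_natDegree_lt
    have : p.natDegree ≤ max p.natDegree L := le_max_left _ _
    omega
  have hlow : ∀ j, j < L → q.coeff j = p.coeff j := by
    intro j hj
    have : L ≤ max p.natDegree L := le_max_right _ _
    rw [hcoef, if_neg (by omega), add_zero]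
  have hsupp : q.support = p.support ∪ (range r).image (fun i => E + i) := by
    ext j
    rw [Finset.mem_union, Polynomial.mem_support_iff, Polynomial.mem_support_iff, hcoef,
      Finset.mem_image]
    by_cases hj : E ≤ j ∧ j < E + r
    · rw [if_pos hj, hpE j hj.1, zero_add]
      constructor
      · intro _
        right
        exact ⟨j - E, Finset.mem_range.2 (by omega), by omega⟩
      · intro _
        exact one_div_ne_zero (mul_ne_zero two_ne_zero hN0)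
    · rw [if_neg hj, add_zero]
      constructor
      · intro h; exact Or.inl h
      · rintro (h | ⟨i, hi, rfl⟩)
        · exact h
        · exfalso
          apply hj
          rw [Finset.mem_range] at hi
          omega
  have hcard : q.support.card = N := by
    rw [hsupp, Finset.card_union_of_disjoint, Finset.card_image_of_injective,
      Finset.card_range]
    · omega
    · intro a b hab
      simpa using hab
    · rw [Finset.disjoint_left]
      intro j hj1 hj2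
      rw [Finset.mem_image] at hj2
      obtain ⟨i, -, rfl⟩ := hj2
      exact (Polynomial.mem_support_iff.1 hj1) (hpE _ (by omega))
  have hsum : ∑ i ∈ range L, q.coeff i = ∑ i ∈ range L, p.coeff i :=
    Finset.sum_congr rfl fun i hi => hlow i (Finset.mem_range.1 hi)
  have hbq : ∀ w : ℂ, ‖w‖ = 1 → ‖q.eval w‖ ≤ 1 := by
    intro w hw
    rw [hq, Polynomial.eval_add, Polynomial.eval_finsetSum]
    refine (norm_add_le _ _).trans ?_
    have h1 := hb w hw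
    have h2 : ‖∑ i ∈ range r, (monomial (E + i) (1 / (2 * N) : ℂ)).eval w‖ ≤ 1 / 2 := by
      refine (norm_sum_le _ _).trans ?_
      have h3 : ∀ i ∈ range r, ‖(monomial (E + i) (1 / (2 * N) : ℂ)).eval w‖ ≤ 1 / (2 * N) := by
        intro i _
        rw [Polynomial.eval_monomial, norm_mul, norm_pow, hw, one_pow, mul_one, norm_div, norm_one,
          norm_mul, Complex.norm_natCast]
        norm_num
      refine (Finset.sum_le_sum h3).trans ?_
      rw [Finset.sum_const, Finset.card_range, nsmul_eq_mul]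
      have hN' : (0 : ℝ) < N := by exact_mod_cast hNpos
      have hrN : (r : ℝ) ≤ N := by exact_mod_cast Nat.sub_le _ _
      rw [mul_one_div, div_le_div_iff₀ (by positivity) (by norm_num)]
      linarith
    linarith
  obtain ⟨m, a, n, h1, h2, h3, h4, h5, h6⟩ := poly_enum q N hcard L (by rw [hsum]; exact hL) hbq
  exact ⟨m, a, n, h1, h2, h3, h4, h5, by rw [h6, hsum]⟩

theorem zpow_three (ζ : ℂ) (k : ℕ) : ζ ^ ((3 : ℤ) ^ k) = ζ ^ 3 ^ k := by
  rw [← zpow_natCast]; push_cast; rfl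

theorem term_eq (ζ : ℂ) (h : ζ ≠ 0) (k : ℕ) (t : ℤ) :
    Psi (ζ ^ 3 ^ k) * ζ ^ t = 2 * ζ ^ ((3 : ℤ) ^ k + t) - 2 * ζ ^ (-(3 : ℤ) ^ k + t)
      - ζ ^ (2 * (3 : ℤ) ^ k + t) + ζ ^ (-(2 * (3 : ℤ) ^ k) + t) := by
  have e2 : ζ ^ (2 * (3 : ℤ) ^ k) = (ζ ^ 3 ^ k) ^ 2 := by
    rw [two_mul, zpow_add₀ h, zpow_three, pow_two]
  rw [zpow_add₀ h, zpow_add₀ h, zpow_add₀ h, zpow_add₀ h, zpow_neg, zpow_neg, e2, zpow_three]
  unfold Psi
  rw [inv_pow]
  ring

theorem term_lip (ζ η : ℂ) (hζ : ‖ζ‖ = 1) (hη : ‖η‖ = 1) (k : ℕ) (t : ℤ) (ht : |t| < 3 ^ k) :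
    ‖Psi (ζ ^ 3 ^ k) * ζ ^ t - Psi (η ^ 3 ^ k) * η ^ t‖ ≤ 6 * (3 : ℝ) ^ (k + 1) * ‖ζ - η‖ := by
  have hζ0 : ζ ≠ 0 := by intro h; rw [h] at hζ; simp at hζ
  have hη0 : η ≠ 0 := by intro h; rw [h] at hη; simp at hη
  rw [term_eq ζ hζ0, term_eq η hη0]
  have hd := norm_nonneg (ζ - η)
  have hab := abs_lt.mp ht
  have key : ∀ n : ℤ, |n| ≤ 3 * 3 ^ k → ‖ζ ^ n - η ^ n‖ ≤ (3 : ℝ) ^ (k + 1) * ‖ζ - η‖ := by
    intro n hn
    refine (zpow_lip ζ η hζ hη n).trans ?_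
    apply mul_le_mul_of_nonneg_right _ hd
    have : ((|n| : ℤ) : ℝ) ≤ ((3 * 3 ^ k : ℤ) : ℝ) := by exact_mod_cast hn
    push_cast at this
    rw [pow_succ]
    linarith
  have hp : (0 : ℤ) < 3 ^ k := by positivity
  have k1 := key ((3 : ℤ) ^ k + t) (by rw [abs_le]; constructor <;> linarith [hab.1, hab.2])
  have k2 := key (-(3 : ℤ) ^ k + t) (by rw [abs_le]; constructor <;> linarith [hab.1, hab.2])
  have k3 := key (2 * (3 : ℤ) ^ k + t) (by rw [abs_le]; constructor <;> linarith [hab.1, hab.2])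
  have k4 := key (-(2 * (3 : ℤ) ^ k) + t) (by rw [abs_le]; constructor <;> linarith [hab.1, hab.2])
  have e : 2 * ζ ^ ((3 : ℤ) ^ k + t) - 2 * ζ ^ (-(3 : ℤ) ^ k + t)
      - ζ ^ (2 * (3 : ℤ) ^ k + t) + ζ ^ (-(2 * (3 : ℤ) ^ k) + t) -
      (2 * η ^ ((3 : ℤ) ^ k + t) - 2 * η ^ (-(3 : ℤ) ^ k + t)
      - η ^ (2 * (3 : ℤ) ^ k + t) + η ^ (-(2 * (3 : ℤ) ^ k) + t)) =
      2 * (ζ ^ ((3 : ℤ) ^ k + t) - η ^ ((3 : ℤ) ^ k + t)) -
      2 * (ζ ^ (-(3 : ℤ) ^ k + t) - η ^ (-(3 : ℤ) ^ k + t)) -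
      (ζ ^ (2 * (3 : ℤ) ^ k + t) - η ^ (2 * (3 : ℤ) ^ k + t)) +
      (ζ ^ (-(2 * (3 : ℤ) ^ k) + t) - η ^ (-(2 * (3 : ℤ) ^ k) + t)) := by ring
  rw [e]
  set a := ζ ^ ((3 : ℤ) ^ k + t) - η ^ ((3 : ℤ) ^ k + t)
  set b := ζ ^ (-(3 : ℤ) ^ k + t) - η ^ (-(3 : ℤ) ^ k + t)
  set c := ζ ^ (2 * (3 : ℤ) ^ k + t) - η ^ (2 * (3 : ℤ) ^ k + t)
  set d := ζ ^ (-(2 * (3 : ℤ) ^ k) + t) - η ^ (-(2 * (3 : ℤ) ^ k) + t)
  have e1 := norm_add_le (2 * a - 2 * b - c) d
  have e2 := norm_sub_le (2 * a - 2 * b) c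
  have e3 := norm_sub_le (2 * a) (2 * b)
  have e4 : ‖2 * a‖ = 2 * ‖a‖ := by rw [norm_mul]; norm_num
  have e5 : ‖2 * b‖ = 2 * ‖b‖ := by rw [norm_mul]; norm_num
  linarith

/-- the unnormalised sum -/
noncomputable def SS (σ : ℕ) (t : Fin σ → Fin (σ ^ 2) → ℤ) (ζ : ℂ) : ℂ :=
  ∑ k : Fin σ, ∑ j : Fin (σ ^ 2), Psi (ζ ^ 3 ^ (k : ℕ)) * ζ ^ t k j

theorem main_part (σ : ℕ) (z : ℂ) (hz : ‖z‖ = 1) :
    ‖∑ k : Fin σ, Psi (z ^ 3 ^ (k : ℕ)) * ∏ i ∈ range (k : ℕ), phi (z ^ 3 ^ i)‖ ≤ 8 := by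
  set p : ℕ → ℝ := fun i => (1 + (z ^ 3 ^ i).re) / 2 with hp
  have hn : ∀ i : ℕ, ‖z ^ 3 ^ i‖ = 1 := fun i => by rw [norm_pow, hz, one_pow]
  have hp0 : ∀ i, 0 ≤ p i := by
    intro i
    have := (abs_le.mp (Complex.abs_re_le_norm (z ^ 3 ^ i))).1
    rw [hn i] at this
    simp only [hp]
    linarith
  have hphi : ∀ i, ‖phi (z ^ 3 ^ i)‖ = p i := by
    intro i
    rw [phi_eq _ (hn i), Complex.norm_real, Real.norm_of_nonneg (hp0 i)]
  refine (norm_sum_le _ _).trans ?_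
  have h1 : ∀ k : Fin σ, ‖Psi (z ^ 3 ^ (k : ℕ)) * ∏ i ∈ range (k : ℕ), phi (z ^ 3 ^ i)‖ ≤
      8 * ((1 - p k) * ∏ i ∈ range (k : ℕ), p i) := by
    intro k
    rw [norm_mul, norm_prod, ← mul_assoc]
    rw [prod_congr rfl (fun i _ => hphi i)]
    exact mul_le_mul_of_nonneg_right (Psi_le _ (hn k)) (prod_nonneg (fun i _ => hp0 i))
  refine (sum_le_sum (fun k _ => h1 k)).trans ?_
  rw [← mul_sum, Fin.sum_univ_eq_sum_range (fun k => (1 - p k) * ∏ i ∈ range k, p i) σ]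
  have := tele p hp0 σ
  linarith

theorem prod_phi_le (k : ℕ) (z : ℂ) (hz : ‖z‖ = 1) : ‖∏ i ∈ range k, phi (z ^ 3 ^ i)‖ ≤ 1 := by
  rw [norm_prod]
  apply prod_le_one (fun i _ => norm_nonneg _)
  intro i _
  have hn : ‖z ^ 3 ^ i‖ = 1 := by rw [norm_pow, hz, one_pow]
  rw [phi_eq _ hn, Complex.norm_real]
  have h1 := abs_le.mp (Complex.abs_re_le_norm (z ^ 3 ^ i))
  rw [hn] at h1
  rw [Real.norm_of_nonneg (by linarith [h1.1])]
  linarith [h1.2]

theorem size_bound (σ : ℕ) (hσ : 1 ≤ σ) :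
    (((40 * σ * 3 ^ σ : ℕ) * 4 : ℕ) : ℝ) ≤ Real.exp (8 * σ) := by
  have h1 : (960 : ℝ) ≤ Real.exp 8 := by
    have h2 : (2.7 : ℝ) < Real.exp 1 := lt_trans (by norm_num) Real.exp_one_gt_d9
    have h3 : Real.exp 8 = Real.exp 1 ^ 8 := by rw [← Real.exp_nat_mul]; norm_num
    rw [h3]
    calc (960 : ℝ) ≤ 2.7 ^ 8 := by norm_num
      _ ≤ Real.exp 1 ^ 8 := pow_le_pow_left₀ (by norm_num) h2.le 8
  have h4 : Real.exp (8 * σ) = Real.exp 8 ^ σ := by rw [← Real.exp_nat_mul]; ring_nf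
  rw [h4]
  have h5 : (960 : ℝ) ^ σ ≤ Real.exp 8 ^ σ := pow_le_pow_left₀ (by norm_num) h1 σ
  refine le_trans ?_ h5
  have h6 : (40 * σ * 3 ^ σ) * 4 ≤ 960 ^ σ := by
    have h7 : σ ≤ 2 ^ σ := Nat.lt_two_pow_self.le
    have h8 : 160 ≤ 160 ^ σ := by
      calc 160 = 160 ^ 1 := by norm_num
        _ ≤ 160 ^ σ := Nat.pow_le_pow_right (by norm_num) hσ
    calc (40 * σ * 3 ^ σ) * 4 = 160 * σ * 3 ^ σ := by ring
      _ ≤ 160 ^ σ * 2 ^ σ * 3 ^ σ := by
          apply Nat.mul_le_mul_right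
          exact Nat.mul_le_mul h8 h7
      _ = 960 ^ σ := by rw [← mul_pow, ← mul_pow]; norm_num
  exact_mod_cast h6

theorem exists_shifts (σ : ℕ) (hσ : 1 ≤ σ) : ∃ t : Fin σ → Fin (σ ^ 2) → ℤ,
    (∀ k j, |t k j| < 3 ^ (k : ℕ)) ∧ ∀ ζ : ℂ, ‖ζ‖ = 1 → ‖SS σ t ζ‖ ≤ 170 * (σ : ℝ) ^ 2 := by
  classical
  have hσ0 : (0 : ℝ) < σ := by exact_mod_cast hσ
  set Q : ℕ := 40 * σ * 3 ^ σ with hQ
  have hQ0 : 0 < Q := by positivity
  set z : Fin Q → ℂ := fun q => Complex.exp (((2 * Real.pi * (q : ℕ) / Q : ℝ) : ℂ) * Complex.I) with hz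
  have hz1 : ∀ q, ‖z q‖ = 1 := fun q => Complex.norm_exp_ofReal_mul_I _
  have hz0 : ∀ q, z q ≠ 0 := fun q => by rw [← norm_pos_iff, hz1 q]; norm_num
  set u : Fin 4 → ℂ := ![1, -1, Complex.I, -Complex.I] with hu
  have hu1 : ∀ d, ‖u d‖ = 1 := by
    intro d
    fin_cases d <;> simp [hu]
  set R : ℕ → ℂ → ℂ := fun k ζ => ∏ i ∈ range k, phi (ζ ^ 3 ^ i) with hR
  set V : ∀ a : Fin σ × Fin (σ ^ 2), (Fin (a.1 : ℕ) → Fin 3) → Fin Q × Fin 4 → ℝ := fun a s x =>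
    (u x.2 * (Psi (z x.1 ^ 3 ^ (a.1 : ℕ)) * (z x.1 ^ shift (a.1 : ℕ) s - R (a.1 : ℕ) (z x.1)))).re with hV
  have hv : ∀ a s x, |V a s x| ≤ 12 := by
    intro a s x
    simp only [hV]
    refine (Complex.abs_re_le_norm _).trans ?_
    rw [norm_mul, norm_mul, hu1, one_mul]
    have h1 : ‖Psi (z x.1 ^ 3 ^ (a.1 : ℕ))‖ ≤ 6 := Psi_le_six _ (by rw [norm_pow, hz1, one_pow])
    have h2 : ‖z x.1 ^ shift (a.1 : ℕ) s - R (a.1 : ℕ) (z x.1)‖ ≤ 2 := by
      refine (norm_sub_le _ _).trans ?_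
      rw [norm_zpow, hz1, one_zpow]
      have := prod_phi_le (a.1 : ℕ) (z x.1) (hz1 _)
      simp only [hR]
      linarith
    have := mul_le_mul h1 h2 (norm_nonneg _) (by norm_num)
    linarith
  have hm : ∀ a x, ∑ s, wts (a.1 : ℕ) s * V a s x = 0 := by
    intro a x
    simp only [hV]
    have h1 : ∀ s : Fin (a.1 : ℕ) → Fin 3, wts (a.1 : ℕ) s *
        (u x.2 * (Psi (z x.1 ^ 3 ^ (a.1 : ℕ)) * (z x.1 ^ shift (a.1 : ℕ) s - R (a.1 : ℕ) (z x.1)))).re =
        (u x.2 * (Psi (z x.1 ^ 3 ^ (a.1 : ℕ)) * ((wts (a.1 : ℕ) s : ℂ) * z x.1 ^ shift (a.1 : ℕ) s -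
          (wts (a.1 : ℕ) s : ℂ) * R (a.1 : ℕ) (z x.1)))).re := by
      intro s
      rw [← Complex.re_ofReal_mul]
      congr 1
      ring
    rw [sum_congr rfl (fun s _ => h1 s), ← Complex.re_sum, ← mul_sum, ← mul_sum, sum_sub_distrib,
      ← sum_mul, riesz _ _ (hz0 _), ← Complex.ofReal_sum, wts_sum]
    simp [hR]
  obtain ⟨ch, hch⟩ := select (α := Fin σ × Fin (σ ^ 2)) (X := Fin Q × Fin 4) Finset.univ
    (fun a => Fin (a.1 : ℕ) → Fin 3) (fun a s => wts (a.1 : ℕ) s) V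
    12 (1 / σ) (by norm_num) (fun a s => wts_nonneg _ s) (fun a => wts_sum _) hv hm
  refine ⟨fun k j => shift (k : ℕ) (ch (k, j)), fun k j => shift_lt _ _, ?_⟩
  set t : Fin σ → Fin (σ ^ 2) → ℤ := fun k j => shift (k : ℕ) (ch (k, j)) with ht
  have hcardA : (((Finset.univ : Finset (Fin σ × Fin (σ ^ 2))).card : ℕ) : ℝ) = (σ : ℝ) ^ 3 := by
    rw [Finset.card_univ, Fintype.card_prod, Fintype.card_fin, Fintype.card_fin]
    push_cast; ring
  have hcardX : ((Fintype.card (Fin Q × Fin 4) : ℕ) : ℝ) ≤ Real.exp (8 * σ) := by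
    rw [Fintype.card_prod, Fintype.card_fin, Fintype.card_fin]
    exact size_bound σ hσ
  rw [hcardA] at hch
  have hexp : (σ : ℝ) ^ 3 * ((1 / σ * 12) ^ 2 / 2) = 72 * σ := by
    field_simp; ring
  rw [hexp] at hch
  set W : Fin Q → ℂ := fun q => ∑ k : Fin σ, ∑ j : Fin (σ ^ 2),
    Psi (z q ^ 3 ^ (k : ℕ)) * (z q ^ t k j - R (k : ℕ) (z q)) with hW
  have hdir : ∀ q d, (u d * W q).re ≤ 80 * (σ : ℝ) ^ 2 := by
    intro q d
    have h1 : ∑ a : Fin σ × Fin (σ ^ 2), (u d * (Psi (z q ^ 3 ^ (a.1 : ℕ)) *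
        (z q ^ shift (a.1 : ℕ) (ch a) - R (a.1 : ℕ) (z q)))).re = (u d * W q).re := by
      rw [← Complex.re_sum, ← mul_sum, Fintype.sum_prod_type]
    have h2 := Finset.single_le_sum (f := fun x : Fin Q × Fin 4 => Real.exp (1 / σ *
      ∑ a : Fin σ × Fin (σ ^ 2), (u x.2 * (Psi (z x.1 ^ 3 ^ (a.1 : ℕ)) *
        (z x.1 ^ shift (a.1 : ℕ) (ch a) - R (a.1 : ℕ) (z x.1)))).re))
      (fun x _ => (Real.exp_pos _).le) (Finset.mem_univ (q, d))
    simp only at h2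
    rw [h1] at h2
    have h3 := h2.trans hch
    have h4 : (Fintype.card (Fin Q × Fin 4) : ℝ) * Real.exp (72 * σ) ≤ Real.exp (80 * σ) := by
      have : Real.exp (80 * σ) = Real.exp (8 * σ) * Real.exp (72 * σ) := by
        rw [← Real.exp_add]; ring_nf
      rw [this]
      exact mul_le_mul_of_nonneg_right hcardX (Real.exp_pos _).le
    have h5 := Real.exp_le_exp.mp (h3.trans h4)
    rw [one_div, inv_mul_le_iff₀ hσ0] at h5
    refine h5.trans (le_of_eq ?_)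
    ring
  have hWn : ∀ q, ‖W q‖ ≤ 160 * (σ : ℝ) ^ 2 := by
    intro q
    have h0 := hdir q 0
    have h1 := hdir q 1
    have h2 := hdir q 2
    have h3 := hdir q 3
    simp [hu] at h0 h1 h2 h3
    have hre : |(W q).re| ≤ 80 * (σ : ℝ) ^ 2 := abs_le.mpr ⟨by linarith, h0⟩
    have him : |(W q).im| ≤ 80 * (σ : ℝ) ^ 2 := abs_le.mpr ⟨by linarith, by linarith⟩
    have := Complex.norm_le_abs_re_add_abs_im (W q)
    linarith
  have hSq : ∀ q, ‖SS σ t (z q)‖ ≤ 168 * (σ : ℝ) ^ 2 := by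
    intro q
    have e : SS σ t (z q) = W q + ((σ ^ 2 : ℕ) : ℂ) *
        ∑ k : Fin σ, Psi (z q ^ 3 ^ (k : ℕ)) * R (k : ℕ) (z q) := by
      simp only [SS, hW]
      rw [mul_sum, ← sum_add_distrib]
      apply sum_congr rfl
      intro k _
      have : ((σ ^ 2 : ℕ) : ℂ) * (Psi (z q ^ 3 ^ (k : ℕ)) * R (k : ℕ) (z q)) =
          ∑ j : Fin (σ ^ 2), Psi (z q ^ 3 ^ (k : ℕ)) * R (k : ℕ) (z q) := by
        rw [Finset.sum_const, Finset.card_univ, Fintype.card_fin, nsmul_eq_mul]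
      rw [this, ← sum_add_distrib]
      apply sum_congr rfl
      intro j _
      ring
    rw [e]
    refine (norm_add_le _ _).trans ?_
    rw [norm_mul, Complex.norm_natCast]
    have h1 := main_part σ (z q) (hz1 q)
    have h2 : (((σ ^ 2 : ℕ) : ℝ)) * ‖∑ k : Fin σ, Psi (z q ^ 3 ^ (k : ℕ)) * R (k : ℕ) (z q)‖ ≤
        ((σ ^ 2 : ℕ) : ℝ) * 8 := mul_le_mul_of_nonneg_left h1 (by positivity)
    push_cast at h2 ⊢
    have h3 := hWn q
    linarith
  intro ζ hζ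
  obtain ⟨q, hq⟩ := net Q hQ0 ζ hζ
  have hlip : ‖SS σ t ζ - SS σ t (z q)‖ ≤ (σ : ℝ) ^ 2 := by
    have e : SS σ t ζ - SS σ t (z q) = ∑ k : Fin σ, ∑ j : Fin (σ ^ 2),
        (Psi (ζ ^ 3 ^ (k : ℕ)) * ζ ^ t k j - Psi (z q ^ 3 ^ (k : ℕ)) * z q ^ t k j) := by
      simp only [SS, sum_sub_distrib]
    rw [e]
    have h1 : ∀ (k : Fin σ) (j : Fin (σ ^ 2)),
        ‖Psi (ζ ^ 3 ^ (k : ℕ)) * ζ ^ t k j - Psi (z q ^ 3 ^ (k : ℕ)) * z q ^ t k j‖ ≤
          6 * (3 : ℝ) ^ σ * (2 * Real.pi / Q) := by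
      intro k j
      refine (term_lip ζ (z q) hζ (hz1 q) k (t k j) (shift_lt _ _)).trans ?_
      have h2 : (3 : ℝ) ^ ((k : ℕ) + 1) ≤ 3 ^ σ := pow_le_pow_right₀ (by norm_num) k.2
      have h3 := norm_nonneg (ζ - z q)
      have h4 : 6 * (3 : ℝ) ^ ((k : ℕ) + 1) ≤ 6 * 3 ^ σ := by linarith
      exact mul_le_mul h4 hq h3 (by positivity)
    have h2 : ‖∑ k : Fin σ, ∑ j : Fin (σ ^ 2),
        (Psi (ζ ^ 3 ^ (k : ℕ)) * ζ ^ t k j - Psi (z q ^ 3 ^ (k : ℕ)) * z q ^ t k j)‖ ≤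
        ∑ k : Fin σ, ∑ j : Fin (σ ^ 2), 6 * (3 : ℝ) ^ σ * (2 * Real.pi / Q) := by
      refine (norm_sum_le _ _).trans (sum_le_sum fun k _ => ?_)
      exact (norm_sum_le _ _).trans (sum_le_sum fun j _ => h1 k j)
    refine h2.trans ?_
    simp only [Finset.sum_const, Finset.card_univ, Fintype.card_fin, nsmul_eq_mul]
    rw [hQ]
    push_cast
    have h3 : (σ : ℝ) * ((σ : ℝ) ^ 2 * (6 * 3 ^ σ * (2 * Real.pi / (40 * σ * 3 ^ σ)))) =
        (σ : ℝ) ^ 2 * (12 * Real.pi / 40) := by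
      have : (3 : ℝ) ^ σ ≠ 0 := by positivity
      field_simp
      ring
    rw [h3]
    have h4 : 12 * Real.pi / 40 ≤ 1 := by
      have := Real.pi_lt_d2
      linarith
    have h5 : (0 : ℝ) ≤ (σ : ℝ) ^ 2 := by positivity
    have := mul_le_mul_of_nonneg_left h4 h5
    linarith
  have h6 := norm_add_le (SS σ t (z q)) (SS σ t ζ - SS σ t (z q))
  rw [add_sub_cancel] at h6
  have h7 := hSq q
  have h8 : (0 : ℝ) ≤ (σ : ℝ) ^ 2 := by positivity
  linarith

/-- frequency multipliers and coefficients of `Psi` -/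
def AA : Fin 4 → ℤ := ![1, -1, 2, -2]

noncomputable def cf : Fin 4 → ℂ := ![2, -2, -1, 1]

theorem exists_poly (σ : ℕ) (hσ : 1 ≤ σ) : ∃ (p : ℂ[X]) (L : ℕ),
    ‖∑ i ∈ range L, p.coeff i‖ = σ / 340 ∧ (∀ w : ℂ, ‖w‖ = 1 → ‖p.eval w‖ ≤ 1 / 2) ∧
    p.support.card ≤ 4 * σ ^ 3 := by
  classical
  obtain ⟨t, ht, hS⟩ := exists_shifts σ hσ
  have hσ0 : (0 : ℝ) < σ := by exact_mod_cast hσ
  set c : ℝ := 1 / (340 * (σ : ℝ) ^ 2) with hc
  have hc0 : 0 < c := by positivity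
  set L : ℕ := 3 ^ (σ + 1) with hL
  set E : (Fin σ × Fin (σ ^ 2)) × Fin 4 → ℕ := fun x =>
    ((L : ℤ) + (AA x.2 * 3 ^ (x.1.1 : ℕ) + t x.1.1 x.1.2)).toNat with hE
  have hAA : ∀ d, -2 ≤ AA d ∧ AA d ≤ 2 := by
    intro d; fin_cases d <;> simp [AA]
  have hpow : ∀ k : Fin σ, (3 : ℤ) * 3 ^ (k : ℕ) ≤ L := by
    intro k
    have h1 : (3 : ℕ) * 3 ^ (k : ℕ) ≤ 3 ^ (σ + 1) := by
      rw [← pow_succ']
      exact Nat.pow_le_pow_right (by norm_num) (by omega)
    rw [hL]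
    exact_mod_cast h1
  have hpos : ∀ k : Fin σ, (0 : ℤ) < 3 ^ (k : ℕ) := fun k => by positivity
  have hnn : ∀ x : (Fin σ × Fin (σ ^ 2)) × Fin 4,
      0 ≤ (L : ℤ) + (AA x.2 * 3 ^ (x.1.1 : ℕ) + t x.1.1 x.1.2) := by
    intro x
    have h1 := abs_lt.mp (ht x.1.1 x.1.2)
    have h2 := hpow x.1.1
    have h3 := hpos x.1.1
    have h4 := (hAA x.2).1
    nlinarith [h1.1]
  have hEz : ∀ x, ((E x : ℕ) : ℤ) = (L : ℤ) + (AA x.2 * 3 ^ (x.1.1 : ℕ) + t x.1.1 x.1.2) := fun x =>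
    Int.toNat_of_nonneg (hnn x)
  set p : ℂ[X] := ∑ x : (Fin σ × Fin (σ ^ 2)) × Fin 4, monomial (E x) ((c : ℂ) * cf x.2) with hp
  refine ⟨p, L, ?_, ?_, ?_⟩
  · have h1 : ∑ i ∈ range L, p.coeff i = ∑ x : (Fin σ × Fin (σ ^ 2)) × Fin 4,
        if E x < L then (c : ℂ) * cf x.2 else 0 := by
      rw [hp]
      simp only [finsetSum_coeff, coeff_monomial]
      rw [sum_comm]
      apply sum_congr rfl
      intro x _
      rw [sum_ite_eq]
      simp only [mem_range]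
    have h2 : ∀ x : (Fin σ × Fin (σ ^ 2)) × Fin 4, E x < L ↔ AA x.2 < 0 := by
      intro x
      have h3 := hEz x
      have h4 := abs_lt.mp (ht x.1.1 x.1.2)
      have h5 := hpos x.1.1
      constructor
      · intro h
        by_contra hge
        push Not at hge
        have h6 : 1 ≤ AA x.2 := by
          have : ∀ d : Fin 4, 0 ≤ AA d → 1 ≤ AA d := by decide
          exact this _ hge
        have h7 : (E x : ℤ) < L := by exact_mod_cast h
        nlinarith [h4.1]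
      · intro h
        have h6 : AA x.2 ≤ -1 := by omega
        have h7 : (E x : ℤ) < L := by nlinarith [h4.2]
        exact_mod_cast h7
    have h3 : ∑ i ∈ range L, p.coeff i = -(((c * (σ : ℝ) ^ 3 : ℝ)) : ℂ) := by
      rw [h1]
      simp only [h2]
      rw [Fintype.sum_prod_type]
      have h4 : ∀ y : Fin σ × Fin (σ ^ 2), ∑ d : Fin 4, (if AA d < 0 then (c : ℂ) * cf d else 0) = -(c : ℂ) := by
        intro y
        simp [Fin.sum_univ_four, AA, cf]
        ring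
      rw [sum_congr rfl (fun y _ => h4 y)]
      simp only [Finset.sum_const, Finset.card_univ, Fintype.card_prod, Fintype.card_fin, nsmul_eq_mul]
      push_cast
      ring
    rw [h3, norm_neg, Complex.norm_real, Real.norm_of_nonneg (by positivity), hc]
    field_simp
  · intro w hw
    have hw0 : w ≠ 0 := by intro h; rw [h] at hw; simp at hw
    have h1 : p.eval w = (c : ℂ) * w ^ L * SS σ t w := by
      rw [hp, eval_finsetSum, Fintype.sum_prod_type, Fintype.sum_prod_type]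
      simp only [SS, mul_sum]
      apply sum_congr rfl
      intro k _
      apply sum_congr rfl
      intro j _
      rw [term_eq w hw0]
      have h2 : ∀ d : Fin 4, eval w (monomial (E ((k, j), d)) ((c : ℂ) * cf d)) =
          (c : ℂ) * cf d * (w ^ L * w ^ (AA d * 3 ^ (k : ℕ) + t k j)) := by
        intro d
        rw [eval_monomial, ← zpow_natCast w (E ((k, j), d)), hEz, zpow_add₀ hw0, zpow_natCast]
      simp only [h2, Fin.sum_univ_four]
      simp only [AA, cf, Matrix.cons_val_zero, Matrix.cons_val_one, Matrix.cons_val]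
      have e1 : (1 : ℤ) * 3 ^ (k : ℕ) + t k j = 3 ^ (k : ℕ) + t k j := by ring
      have e2 : (-1 : ℤ) * 3 ^ (k : ℕ) + t k j = -3 ^ (k : ℕ) + t k j := by ring
      have e3 : (-2 : ℤ) * 3 ^ (k : ℕ) + t k j = -(2 * 3 ^ (k : ℕ)) + t k j := by ring
      rw [e1, e2, e3]
      ring
    rw [h1, norm_mul, norm_mul, norm_pow, hw, one_pow, mul_one, Complex.norm_real,
      Real.norm_of_nonneg hc0.le]
    have h2 := mul_le_mul_of_nonneg_left (hS w hw) hc0.le
    refine h2.trans (le_of_eq ?_)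
    rw [hc]
    field_simp
    norm_num
  · have h1 : p.support ⊆ (Finset.univ : Finset ((Fin σ × Fin (σ ^ 2)) × Fin 4)).image E := by
      intro i hi
      rw [mem_support_iff] at hi
      by_contra hne
      apply hi
      rw [hp]
      simp only [finsetSum_coeff, coeff_monomial]
      apply sum_eq_zero
      intro x _
      rw [if_neg]
      intro h
      exact hne (Finset.mem_image.mpr ⟨x, Finset.mem_univ x, h⟩)
    refine (Finset.card_le_card h1).trans (Finset.card_image_le.trans (le_of_eq ?_))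
    rw [Finset.card_univ, Fintype.card_prod, Fintype.card_prod, Fintype.card_fin, Fintype.card_fin, Fintype.card_fin]
    ring

theorem psum_le {N : ℕ} (m : Fin N → ℕ) (hm : StrictMono m) (a : Fin N → ℂ)
    (h : ∀ w : ℂ, ‖w‖ = 1 → ‖poly m a w‖ ≤ 1) (n : ℕ) (z : ℂ) (hz : ‖z‖ = 1) :
    ‖psum m a n z‖ ≤ √N := by
  have h1 := parseval m hm a h
  unfold psum
  refine (norm_sum_le _ _).trans ?_
  have h2 : ∀ k : Fin N, ‖a k * z ^ m k‖ = ‖a k‖ := by
    intro k; rw [norm_mul, norm_pow, hz, one_pow, mul_one]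
  simp only [h2]
  apply Real.le_sqrt_of_sq_le
  have h3 := sq_sum_le_card_mul_sum_sq (s := univ.filter (fun k : Fin N => (k : ℕ) < n)) (f := fun k => ‖a k‖)
  refine h3.trans ?_
  have h4 : ((univ.filter (fun k : Fin N => (k : ℕ) < n)).card : ℝ) ≤ N := by
    have := Finset.card_filter_le (univ : Finset (Fin N)) (fun k : Fin N => (k : ℕ) < n)
    rw [Finset.card_univ, Fintype.card_fin] at this
    exact_mod_cast this
  have h5 : ∑ k ∈ univ.filter (fun k : Fin N => (k : ℕ) < n), ‖a k‖ ^ 2 ≤ 1 :=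
    (Finset.sum_le_sum_of_subset_of_nonneg (Finset.filter_subset _ _) (fun i _ _ => sq_nonneg _)).trans h1
  have h6 : 0 ≤ ∑ k ∈ univ.filter (fun k : Fin N => (k : ℕ) < n), ‖a k‖ ^ 2 :=
    Finset.sum_nonneg (fun i _ => sq_nonneg _)
  calc _ ≤ (N : ℝ) * 1 := mul_le_mul h4 h5 h6 (by positivity)
    _ = N := mul_one _

theorem bdd (N : ℕ) : BddAbove {r | ∃ (m : Fin N → ℕ) (a : Fin N → ℂ) (n : ℕ) (z : ℂ), StrictMono m ∧
    (∀ k, a k ≠ 0) ∧ (∀ w : ℂ, ‖w‖ = 1 → ‖poly m a w‖ ≤ 1) ∧ 1 ≤ n ∧ n ≤ N ∧ ‖z‖ = 1 ∧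
    r = ‖psum m a n z‖} := by
  refine ⟨√N, ?_⟩
  rintro r ⟨m, a, n, z, hm, _, hb, _, _, hz, rfl⟩
  exact psum_le m hm a hb n z hz

theorem M_ge (N : ℕ) (p : ℂ[X]) (L : ℕ) (hL : ∑ i ∈ range L, p.coeff i ≠ 0)
    (hb : ∀ w : ℂ, ‖w‖ = 1 → ‖p.eval w‖ ≤ 1 / 2) (hN : p.support.card ≤ N) :
    ‖∑ i ∈ range L, p.coeff i‖ ≤ M N := by
  obtain ⟨m, a, n, hm, ha, hb', hn1, hn2, hs⟩ := conv_poly p L hL hb N hN
  exact le_csSup (bdd N) ⟨m, a, n, 1, hm, ha, hb', hn1, hn2, by simp, by rw [hs]⟩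

theorem M_ge_half (N : ℕ) (hN : 1 ≤ N) : 1 / 2 ≤ M N := by
  have h := M_ge N (C (1 / 2 : ℂ)) 1 (by simp) (by intro w _; simp) (by
    refine le_trans ?_ hN
    have := card_support_C_mul_X_pow_le_one (c := (1 / 2 : ℂ)) (n := 0)
    simpa using this)
  simpa using h

theorem M_ge_sigma (N σ : ℕ) (hσ : 1 ≤ σ) (hN : 4 * σ ^ 3 ≤ N) : (σ : ℝ) / 340 ≤ M N := by
  obtain ⟨p, L, h1, h2, h3⟩ := exists_poly σ hσ
  rw [← h1]
  apply M_ge N p L _ h2 (h3.trans hN)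
  rw [← norm_pos_iff, h1]
  positivity

/-- `N^(1/3) / 1360 ≤ M N ≤ N^(1/2)` for all `N ≥ 1` -/
theorem result : (∀ N : ℕ, 1 ≤ N → (1 / 1360 : ℝ) * (N : ℝ) ^ (1 / 3 : ℝ) ≤ M N) ∧
    ∀ N : ℕ, 1 ≤ N → M N ≤ √N := by
  constructor
  · intro N hN
    rcases Nat.lt_or_ge N 4 with h4 | h4
    · have h1 : (N : ℝ) ^ (1 / 3 : ℝ) ≤ (N : ℝ) ^ (1 : ℝ) :=
        Real.rpow_le_rpow_of_exponent_le (by exact_mod_cast hN) (by norm_num)
      rw [Real.rpow_one] at h1
      have h2 : (N : ℝ) < 4 := by exact_mod_cast h4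
      have := M_ge_half N hN
      linarith
    · set σ := Nat.findGreatest (fun s => 4 * s ^ 3 ≤ N) N with hσ
      have h1 : 4 * σ ^ 3 ≤ N := Nat.findGreatest_spec (P := fun s => 4 * s ^ 3 ≤ N) (m := 1) (by omega) (by simpa using h4)
      have h2 : 1 ≤ σ := Nat.le_findGreatest (P := fun s => 4 * s ^ 3 ≤ N) (by omega) (by simpa using h4)
      have h3 : N < 4 * (σ + 1) ^ 3 := by
        by_contra hle
        push Not at hle
        have h5 : σ + 1 ≤ N := by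
          have : σ + 1 ≤ (σ + 1) ^ 3 := Nat.le_self_pow (by norm_num) _
          omega
        have := Nat.le_findGreatest (P := fun s => 4 * s ^ 3 ≤ N) h5 hle
        omega
      have h4' : (N : ℝ) ≤ (4 * (σ : ℝ)) ^ 3 := by
        have h5 : (σ + 1) ^ 3 ≤ (2 * σ) ^ 3 := Nat.pow_le_pow_left (by omega) 3
        have h6 : N ≤ 4 * (2 * σ) ^ 3 := by omega
        have h7 : 4 * (2 * σ) ^ 3 ≤ (4 * σ) ^ 3 := by
          have : 0 ≤ σ ^ 3 := Nat.zero_le _
          nlinarith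
        exact_mod_cast h6.trans h7
      have h5 : (N : ℝ) ^ (1 / 3 : ℝ) ≤ 4 * σ := by
        have h6 := Real.rpow_le_rpow (by positivity) h4' (by norm_num : (0 : ℝ) ≤ 1 / 3)
        refine h6.trans (le_of_eq ?_)
        rw [← Real.rpow_natCast, ← Real.rpow_mul (by positivity)]
        norm_num
      have h6 := M_ge_sigma N σ h2 h1
      linarith
  · intro N hN
    apply csSup_le
    · obtain ⟨m, a, n, hm, ha, hb', hn1, hn2, hs⟩ := conv_poly (C (1 / 2 : ℂ)) 1 (by simp) (by intro w _; simp) N (by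
        refine le_trans ?_ hN
        have := card_support_C_mul_X_pow_le_one (c := (1 / 2 : ℂ)) (n := 0)
        simpa using this)
      exact ⟨_, m, a, n, 1, hm, ha, hb', hn1, hn2, by simp, rfl⟩
    · rintro r ⟨m, a, n, z, hm, _, hb, _, _, hz, rfl⟩
      exact psum_le m hm a hb n z hz

end Pool.Agent.Results.MP_9a0a6c_an.CubeRoot
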